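import Pool.Agent.H705.RO.Stm2

/-! # Part DLO (helper379) -/

set_option autoImplicit false

namespace Pool.Agent.H379.RO

open MeasureTheory ProbabilityTheory Filter Topology Finset
open Pool.Agent.H705.RO

theorem log_tend : Tendsto (fun N : ℕ => Real.log (N : ℝ)) atTop atTop :=
  Real.tendsto_log_atTop.comp tendsto_natCast_atTop_atTop

theorem rpow_tend {θ : ℝ} (hθ : 0 < θ) : Tendsto (fun k : ℕ => (k : ℝ) ^ θ) atTop atTop :=
  (tendsto_rpow_atTop hθ).comp tendsto_natCast_atTop_atTop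

theorem le_Nk (θ : ℝ) (k : ℕ) : (k : ℝ) ^ θ ≤ Nk θ k := Nat.le_ceil _

theorem Nk_le (θ : ℝ) (k : ℕ) : (Nk θ k : ℝ) ≤ (k : ℝ) ^ θ + 1 :=
  (Nat.ceil_lt_add_one (Real.rpow_nonneg (Nat.cast_nonneg k) θ)).le

theorem Nk_tend {θ : ℝ} (hθ : 0 < θ) : Tendsto (Nk θ) atTop atTop :=
  tendsto_nat_ceil_atTop.comp (rpow_tend hθ)

/-- the main term -/
theorem ev_main {κ b θ q c b' : ℝ} {a : ℕ → ℝ} (hκ : 0 < κ) (hb' : b' < b) (hb0 : 0 < b')
    (hc : 0 < c) (hq : 0 < q) (hθ : 0 ≤ θ) (hb : 0 ≤ b)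
    (hlim : Tendsto (fun N : ℕ => R a N / Real.log N ^ κ) atTop (𝓝 b))
    (h : θ * b < c * b' * q ^ κ) :
    ∀ᶠ k : ℕ in atTop, θ * b * Real.log ((k : ℝ) + 1) ^ κ ≤ c * R a (Nk q k) - 2 := by
  have e1 : ∀ᶠ N : ℕ in atTop, b' * Real.log N ^ κ ≤ R a N := by
    filter_upwards [hlim.eventually_const_lt hb', log_tend.eventually_gt_atTop 0] with N h1 h2
    have h3 : 0 < Real.log (N : ℝ) ^ κ := Real.rpow_pos_of_pos h2 _
    rw [lt_div_iff₀ h3] at h1
    exact h1.le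
  have h1 : Tendsto (fun y : ℝ => θ * b * (1 + Real.log 2 / y) ^ κ + 2 / y ^ κ) atTop
      (𝓝 (θ * b * (1 + 0) ^ κ + 0)) := by
    have h2 : Tendsto (fun y : ℝ => Real.log 2 / y) atTop (𝓝 0) :=
      tendsto_const_nhds.div_atTop tendsto_id
    have h3 : Tendsto (fun y : ℝ => (1 + Real.log 2 / y) ^ κ) atTop (𝓝 ((1 + 0) ^ κ)) :=
      (tendsto_const_nhds.add h2).rpow_const (Or.inr hκ.le)
    exact (h3.const_mul (θ * b)).add (tendsto_const_nhds.div_atTop (tendsto_rpow_atTop hκ))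
  rw [add_zero, add_zero, Real.one_rpow, mul_one] at h1
  filter_upwards [log_tend.eventually (h1.eventually_lt_const h), log_tend.eventually_gt_atTop 1,
    (Nk_tend hq).eventually e1, eventually_ge_atTop 1] with k hk hk1 hk2 hk3
  have hkR : (1 : ℝ) ≤ k := by exact_mod_cast hk3
  have hy : 0 < Real.log (k : ℝ) := by linarith
  have h4 : Real.log ((k : ℝ) + 1) ≤ Real.log (k : ℝ) + Real.log 2 := by
    have h5 : Real.log ((k : ℝ) + 1) ≤ Real.log (k * 2) := Real.log_le_log (by linarith) (by linarith)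
    rwa [Real.log_mul (by linarith) (by norm_num)] at h5
  have h5 : 0 ≤ Real.log ((k : ℝ) + 1) := Real.log_nonneg (by linarith)
  have h6 : Real.log ((k : ℝ) + 1) ^ κ ≤ (Real.log (k : ℝ) + Real.log 2) ^ κ :=
    Real.rpow_le_rpow h5 h4 hκ.le
  have h7 : (Real.log (k : ℝ) + Real.log 2) ^ κ =
      (1 + Real.log 2 / Real.log (k : ℝ)) ^ κ * Real.log (k : ℝ) ^ κ := by
    have hl2 : 0 ≤ Real.log 2 := Real.log_nonneg (by norm_num)
    rw [← Real.mul_rpow (by positivity) hy.le]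
    congr 1
    field_simp
  have h8 : 0 < Real.log (k : ℝ) ^ κ := Real.rpow_pos_of_pos hy _
  have h9 := mul_lt_mul_of_pos_right hk h8
  have h10 : (θ * b * (1 + Real.log 2 / Real.log (k : ℝ)) ^ κ + 2 / Real.log (k : ℝ) ^ κ) *
      Real.log (k : ℝ) ^ κ = θ * b * ((1 + Real.log 2 / Real.log (k : ℝ)) ^ κ *
        Real.log (k : ℝ) ^ κ) + 2 := by
    field_simp
  rw [h10, ← h7] at h9
  have h11 := mul_le_mul_of_nonneg_left h6 (mul_nonneg hθ hb)
  -- `log N ≥ q log k`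
  have h12 : q * Real.log (k : ℝ) ≤ Real.log (Nk q k : ℝ) := by
    rw [← Real.log_rpow (by linarith)]
    exact Real.log_le_log (Real.rpow_pos_of_pos (by linarith) _) (le_Nk q k)
  have h13 : (q * Real.log (k : ℝ)) ^ κ ≤ Real.log (Nk q k : ℝ) ^ κ :=
    Real.rpow_le_rpow (by positivity) h12 hκ.le
  rw [Real.mul_rpow hq.le hy.le] at h13
  have h14 : c * b' * (q ^ κ * Real.log (k : ℝ) ^ κ) ≤ c * R a (Nk q k) := by
    calc c * b' * (q ^ κ * Real.log (k : ℝ) ^ κ) ≤ c * b' * Real.log (Nk q k : ℝ) ^ κ :=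
          mul_le_mul_of_nonneg_left h13 (by positivity)
      _ = c * (b' * Real.log (Nk q k : ℝ) ^ κ) := by ring
      _ ≤ c * R a (Nk q k) := mul_le_mul_of_nonneg_left hk2 hc.le
  have h15 : c * b' * q ^ κ * Real.log (k : ℝ) ^ κ = c * b' * (q ^ κ * Real.log (k : ℝ) ^ κ) := by
    ring
  linarith

/-- the tail -/
theorem ev_tail {W : ℕ → ℝ → ℝ} {S : ℝ → ℝ} {K : ℝ}
    (hK : ∀ J k : ℕ, ∀ t : ℝ, 0 ≤ t → t ≤ 2 ^ k → ∀ M : ℕ, 2 ^ J ≤ M →
      |S t - part W M t| ≤ K * (2 : ℝ) ^ (-(pe 0 * J / 2)) * Real.sqrt ((J : ℝ) + k + 1)) :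
    ∀ᶠ k : ℕ in atTop, ∀ N : ℕ, ∀ t : ℝ, 0 ≤ t → t ≤ 2 ^ k → |S t - part W (N + k ^ 4) t| ≤ 1 := by
  filter_upwards [eventually_ge_atTop 1,
    tendsto_natCast_atTop_atTop.eventually_ge_atTop (24 * (|K| + 1) ^ 2)] with k h1 h2 N t ht0 ht
  have hk1 : (1 : ℝ) ≤ k := by exact_mod_cast h1
  have hk0 : (0 : ℝ) < k := by linarith
  obtain ⟨J, hJ⟩ : ∃ J : ℕ, J = Nat.log 2 (k ^ 4) := ⟨_, rfl⟩
  have hJ1 : 2 ^ J ≤ k ^ 4 := by
    rw [hJ]
    exact Nat.pow_log_le_self 2 (pow_ne_zero 4 (by omega))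
  have hJ2 : k ^ 4 < 2 ^ (J + 1) := by
    rw [hJ]
    exact Nat.lt_pow_succ_log_self (by norm_num) _
  have hJ3 : J ≤ 4 * k := by
    have h3 : 2 ^ J ≤ 2 ^ (4 * k) := by
      refine hJ1.trans ?_
      rw [Nat.mul_comm, pow_mul]
      exact Nat.pow_le_pow_left Nat.lt_two_pow_self.le 4
    exact (Nat.pow_le_pow_iff_right (by norm_num)).1 h3
  have hpe : pe 0 = 1 / 2 := by
    unfold pe
    norm_num
  have hx : (2 : ℝ) ^ (-(pe 0 * J / 2)) ≤ 2 / k := by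
    rw [hpe]
    have hx0 : (0 : ℝ) < (2 : ℝ) ^ (-(1 / 2 * (J : ℝ) / 2)) := Real.rpow_pos_of_pos (by norm_num) _
    have hx4 : ((2 : ℝ) ^ (-(1 / 2 * (J : ℝ) / 2))) ^ 4 * 2 ^ J = 1 := by
      rw [← Real.rpow_natCast ((2 : ℝ) ^ (-(1 / 2 * (J : ℝ) / 2))) 4, ← Real.rpow_mul (by norm_num),
        ← Real.rpow_natCast 2 J, ← Real.rpow_add (by norm_num)]
      have h3 : -(1 / 2 * (J : ℝ) / 2) * ((4 : ℕ) : ℝ) + (J : ℝ) = 0 := by
        push_cast
        ring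
      rw [h3, Real.rpow_zero]
    have hJ2' : (k : ℝ) ^ 4 ≤ 2 ^ (J + 1) := by exact_mod_cast hJ2.le
    rw [le_div_iff₀ hk0]
    refine le_of_pow_le_pow_left₀ (n := 4) (by norm_num) (by norm_num) ?_
    rw [mul_pow]
    have h3 := mul_le_mul_of_nonneg_left hJ2' (pow_pos hx0 4).le
    rw [pow_succ (2 : ℝ) J, ← mul_assoc, hx4] at h3
    linarith
  have hs : Real.sqrt ((J : ℝ) + k + 1) ≤ k / (2 * (|K| + 1)) := by
    have hK0 : 0 ≤ |K| := abs_nonneg K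
    rw [Real.sqrt_le_iff]
    refine ⟨by positivity, ?_⟩
    have h3 : (J : ℝ) ≤ 4 * k := by exact_mod_cast hJ3
    have h4 : (J : ℝ) + k + 1 ≤ 6 * k := by linarith
    refine h4.trans ?_
    rw [div_pow, le_div_iff₀ (by positivity)]
    have h5 := mul_le_mul_of_nonneg_right h2 hk0.le
    nlinarith
  have hfin := hK J k t ht0 ht (N + k ^ 4) (hJ1.trans (Nat.le_add_left _ _))
  refine hfin.trans ?_
  have hx0 : (0 : ℝ) ≤ (2 : ℝ) ^ (-(pe 0 * J / 2)) := Real.rpow_nonneg (by norm_num) _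
  have hK0 : 0 ≤ |K| := abs_nonneg K
  have hK1 : 0 < |K| + 1 := by linarith
  calc K * (2 : ℝ) ^ (-(pe 0 * J / 2)) * Real.sqrt ((J : ℝ) + k + 1)
      ≤ |K| * (2 / k) * (k / (2 * (|K| + 1))) := by
        refine mul_le_mul ?_ hs (Real.sqrt_nonneg _) (by positivity)
        exact mul_le_mul (le_abs_self K) hx hx0 hK0
    _ = |K| / (|K| + 1) := by
        field_simp
    _ ≤ 1 := by
        rw [div_le_one hK1]
        linarith

/-- the length -/
theorem ev_len {D q s : ℝ} (hD : 0 < D) (hq : 0 < q) (hqs : q < s) :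
    ∀ᶠ k : ℕ in atTop, ∀ T : ℝ, 2 ^ k ≤ T → T ≤ 2 ^ (k + 1) →
      T * Real.exp (-(Real.log T ^ s)) ≤ 2 ^ k * Real.exp (-(D * Nk q k)) / 4 := by
  have hC : (0 : ℝ) < (1 / 2 : ℝ) ^ s := Real.rpow_pos_of_pos (by norm_num) _
  have h8 : 0 ≤ Real.log 8 := Real.log_nonneg (by norm_num)
  filter_upwards [(rpow_tend (sub_pos.2 hqs)).eventually_ge_atTop ((2 * D + Real.log 8) / (1 / 2 : ℝ) ^ s),
    eventually_ge_atTop 1] with k hk hk1 T hT1 hT2
  have hkR : (1 : ℝ) ≤ k := by exact_mod_cast hk1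
  have hk0 : (0 : ℝ) < k := by linarith
  have h2k : (0 : ℝ) < 2 ^ k := by positivity
  have hT0 : 0 < T := lt_of_lt_of_le h2k hT1
  have hkq : (1 : ℝ) ≤ (k : ℝ) ^ q := Real.one_le_rpow hkR hq.le
  have h3 : (k : ℝ) / 2 ≤ Real.log T := by
    have h4 : Real.log ((2 : ℝ) ^ k) ≤ Real.log T := Real.log_le_log h2k hT1
    rw [Real.log_pow] at h4
    have h5 : (1 / 2 : ℝ) ≤ Real.log 2 := by
      have := Real.log_two_gt_d9
      linarith
    nlinarith
  have h4 : ((k : ℝ) / 2) ^ s ≤ Real.log T ^ s :=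
    Real.rpow_le_rpow (by positivity) h3 (by linarith)
  have h5 : ((k : ℝ) / 2) ^ s = (1 / 2 : ℝ) ^ s * ((k : ℝ) ^ (s - q) * (k : ℝ) ^ q) := by
    rw [← Real.rpow_add hk0, sub_add_cancel, ← Real.mul_rpow (by norm_num) hk0.le]
    congr 1
    ring
  have h6 : (2 * D + Real.log 8) * (k : ℝ) ^ q ≤ ((k : ℝ) / 2) ^ s := by
    rw [h5, ← mul_assoc]
    refine mul_le_mul_of_nonneg_right ?_ (by linarith)
    rw [div_le_iff₀ hC] at hk
    linarith
  have h7 : D * Nk q k + Real.log 8 ≤ Real.log T ^ s := by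
    have a1 := mul_le_mul_of_nonneg_left (Nk_le q k) hD.le
    have a2 : D * ((k : ℝ) ^ q + 1) + Real.log 8 ≤ (2 * D + Real.log 8) * (k : ℝ) ^ q := by
      nlinarith
    linarith
  have h9 : Real.exp (-(Real.log T ^ s)) ≤ Real.exp (-(D * Nk q k)) / 8 := by
    have e1 : Real.exp (-(D * Nk q k)) / 8 = Real.exp (-(D * Nk q k + Real.log 8)) := by
      rw [neg_add, Real.exp_add, Real.exp_neg (Real.log 8), Real.exp_log (by norm_num)]
      rfl
    rw [e1]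
    exact Real.exp_le_exp.2 (by linarith)
  have hT2' : T ≤ 2 * 2 ^ k := by rw [pow_succ] at hT2; linarith
  calc T * Real.exp (-(Real.log T ^ s)) ≤ (2 * 2 ^ k) * (Real.exp (-(D * Nk q k)) / 8) :=
        mul_le_mul hT2' h9 (Real.exp_pos _).le (by positivity)
    _ = 2 ^ k * Real.exp (-(D * Nk q k)) / 4 := by ring

theorem T_DLO : P_DLO := by
  intro W S a σ κ b hσ ha hUT hκ hb hlim H θ ε hθ0 hθ1 hε
  set ϑ : ℝ := θ ^ (1 / κ) with hϑ
  have hϑ0 : 0 < ϑ := Real.rpow_pos_of_pos hθ0 _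
  have hϑ1 : ϑ < 1 := Real.rpow_lt_one hθ0.le hθ1 (by positivity)
  have hϑκ : ϑ ^ κ = θ := by
    rw [hϑ, ← Real.rpow_mul hθ0.le, one_div_mul_cancel hκ.ne', Real.rpow_one]
  obtain ⟨q, hq1, hq2⟩ := exists_rat_btwn (lt_min hϑ1 (by linarith : ϑ < ϑ + ε))
  have hq3 : (q : ℝ) < 1 := lt_of_lt_of_le hq2 (min_le_left _ _)
  have hq4 : (q : ℝ) < ϑ + ε := lt_of_lt_of_le hq2 (min_le_right _ _)
  have hq0 : (0 : ℝ) < q := hϑ0.trans hq1
  have hqκ : θ < (q : ℝ) ^ κ := by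
    rw [← hϑκ]
    exact Real.rpow_lt_rpow hϑ0.le hq1 hκ
  have hqκ0 : 0 < (q : ℝ) ^ κ := hθ0.trans hqκ
  have hr : θ / (q : ℝ) ^ κ < 1 := (div_lt_one hqκ0).2 hqκ
  have hr0 : 0 < θ / (q : ℝ) ^ κ := by positivity
  obtain ⟨c, hc1, hc2⟩ := exists_between hr
  have hc0 : 0 < c := hr0.trans hc1
  have hcq : θ < c * (q : ℝ) ^ κ := by rwa [div_lt_iff₀ hqκ0] at hc1
  have hbb : θ * b / (c * (q : ℝ) ^ κ) < b := by
    rw [div_lt_iff₀ (by positivity)]
    nlinarith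
  obtain ⟨b', hb1, hb2⟩ := exists_between hbb
  have hb0 : 0 < b' := lt_trans (by positivity) hb1
  have hmain : θ * b < c * b' * (q : ℝ) ^ κ := by
    rw [div_lt_iff₀ (by positivity)] at hb1
    linarith
  obtain ⟨D, hD, hH⟩ := H c hc0 hc2 q (by exact_mod_cast hq0) (by exact_mod_cast hq3)
  obtain ⟨K, hK⟩ := hUT 0
  have E1 := ev_main hκ hb2 hb0 hc0 hq0 hθ0.le hb.le hlim hmain
  have E2 := ev_tail (W := W) (S := S) hK
  have E3 := ev_len hD hq0 hq4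
  have hl2 : (0 : ℝ) < Real.log 2 := Real.log_pos (by norm_num)
  have htend : Tendsto (fun T : ℝ => ⌊Real.log T / Real.log 2⌋₊) atTop atTop :=
    tendsto_nat_floor_atTop.comp (Real.tendsto_log_atTop.atTop_div_const hl2)
  filter_upwards [htend.eventually (hH.and (E1.and (E2.and (E3.and (eventually_ge_atTop 2))))),
    eventually_gt_atTop 1] with T hT hT1
  set k : ℕ := ⌊Real.log T / Real.log 2⌋₊ with hk
  obtain ⟨g1, g2, g3, g4, g5⟩ := hT
  have hT0 : 0 < T := by linarith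
  have hlT : 0 < Real.log T := Real.log_pos hT1
  have hkT : (2 : ℝ) ^ k ≤ T := by
    have h1 : (k : ℝ) ≤ Real.log T / Real.log 2 := Nat.floor_le (by positivity)
    rw [le_div_iff₀ hl2] at h1
    have h2 : Real.log ((2 : ℝ) ^ k) ≤ Real.log T := by rw [Real.log_pow]; exact h1
    exact (Real.log_le_log_iff (by positivity) hT0).1 h2
  have hkT2 : Real.log T ≤ (k + 1) * Real.log 2 := by
    have h1 : Real.log T / Real.log 2 < (k : ℝ) + 1 := Nat.lt_floor_add_one _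
    rw [div_lt_iff₀ hl2] at h1
    exact h1.le
  have hkT3 : T ≤ (2 : ℝ) ^ (k + 1) := by
    have h2 : Real.log T ≤ Real.log ((2 : ℝ) ^ (k + 1)) := by
      rw [Real.log_pow]
      push_cast
      exact hkT2
    exact (Real.log_le_log_iff hT0 (by positivity)).1 h2
  have hlog1 : 1 ≤ Real.log T := by
    have h1 : Real.log ((2 : ℝ) ^ k) ≤ Real.log T := Real.log_le_log (by positivity) hkT
    rw [Real.log_pow] at h1
    have h2 : (2 : ℝ) ≤ k := by exact_mod_cast g5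
    have h3 : (1 / 2 : ℝ) ≤ Real.log 2 := by
      have := Real.log_two_gt_d9
      linarith
    nlinarith
  have hll : Real.log (Real.log T) ≤ Real.log ((k : ℝ) + 1) := by
    apply Real.log_le_log hlT
    have h3 : Real.log 2 ≤ 1 := by
      have := Real.log_two_lt_d9
      linarith
    have h4 : (0 : ℝ) ≤ (k : ℝ) + 1 := by positivity
    nlinarith
  have hll0 : 0 ≤ Real.log (Real.log T) := Real.log_nonneg hlog1
  have hpow : θ * b * Real.log (Real.log T) ^ κ ≤ θ * b * Real.log ((k : ℝ) + 1) ^ κ :=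
    mul_le_mul_of_nonneg_left (Real.rpow_le_rpow hll0 hll hκ.le) (by positivity)
  refine (ENNReal.ofReal_le_ofReal (g4 T hkT hkT3)).trans (g1.trans (measure_mono ?_))
  rintro t ⟨ht0, ht1, ht2, ht3⟩
  refine ⟨ht0, ht1.trans hkT, ?_⟩
  have h2 := g3 (Nk q k) t ht0 ht1
  have h3 : part W (Nk q k + k ^ 4) t = part W (Nk q k) t +
      ∑ n ∈ Ico (Nk q k) (Nk q k + k ^ 4), W n t := by
    unfold part
    exact (Finset.sum_range_add_sum_Ico _ (Nat.le_add_right _ _)).symm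
  have habs : ∀ x : ℝ, |x| ≤ 1 → -1 ≤ σ * x := by
    intro x hx
    have hx' := abs_le.1 hx
    rcases hσ with h | h
    · rw [h]
      linarith
    · rw [h]
      linarith
  have h4 := habs _ ht3
  have h5 := habs _ h2
  have h6 : σ * S t = σ * part W (Nk q k) t + σ * (∑ n ∈ Ico (Nk q k) (Nk q k + k ^ 4), W n t) +
      σ * (S t - part W (Nk q k + k ^ 4) t) := by
    rw [h3]
    ring
  rw [h6]
  linarith

end Pool.Agent.H379.RO
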